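import Mathlib
import Pool.Agent.X27.Code.Fin

/-!
# MP_0430e4_lc: binary codes closed under Boolean operations

A code `C ⊆ {0,1}^n` is closed under the operation `f : {0,1}^k → {0,1}` if `f` applied coordinate
by coordinate to any `k` words of `C` gives a word of `C`. For every set `F` of Boolean operations
we consider the largest size `size F n d` of a code of length `n` and minimum distance `d` closed
under all operations in `F` (`size ∅ n d` is `A(n, d)`; linear codes are those closed under `x + y`).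

There are only three cases.

1. Some operation in `F` is not affine over `F_2` (for example and, or, majority). Then
   `size F n d = 2 ^ ⌊n / d⌋` for all `1 ≤ d ≤ n`; in particular the asymptotic rate is zero.
2. All operations in `F` are affine and one of them depends on two variables. Then `size F n d` is
   between the largest sizes of linear codes with and without the all-one word.
3. All operations in `F` depend on at most one variable. Then `size F n d` is between the largest
   sizes of self-complementary codes and of all codes.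

In the cases 2 and 3 the rate satisfies the bound of Gilbert and Varshamov. So the rate of the best
codes closed under `F` is either zero for every `δ > 0`, or at least `1 - H_2(δ)` for all
`0 < δ < 1/2`. Moreover an arbitrary code of minimum distance `d` which is covered by `m` subsets,
each closed under some operation which is not affine, has at most `m 2 ^ ⌊n / d⌋` words.
-/

set_option autoImplicit false

namespace Pool.Agent.Results.MP_0430e4_lc.ClosedUnderOperations

open Finset Filter

/-- A Boolean operation: the number of its variables and the function. -/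
abbrev Op : Type := Σ k : ℕ, ((Fin k → Bool) → Bool)

/-- `f` is affine over `F_2`: `f (x + y + z) = f x + f y + f z`. -/
def IsAffine (f : Op) : Prop :=
  ∀ x y z : Fin f.1 → Bool,
    f.2 (fun i => (x i ^^ y i) ^^ z i) = ((f.2 x ^^ f.2 y) ^^ f.2 z)

/-- `f` depends on its `i`-th variable. -/
def Depends (f : Op) (i : Fin f.1) : Prop :=
  ∃ x : Fin f.1 → Bool, f.2 (Function.update x i (!x i)) ≠ f.2 x

/-- The code `C` is closed under `f`, applied coordinate by coordinate. -/
def ClosedUnder {n : ℕ} (f : Op) (C : Finset (Fin n → Bool)) : Prop :=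
  ∀ a : Fin f.1 → (Fin n → Bool), (∀ i, a i ∈ C) → (fun j => f.2 (fun i => a i j)) ∈ C

/-- The code `C` has minimum distance at least `d`. -/
def HasDist {n : ℕ} (C : Finset (Fin n → Bool)) (d : ℕ) : Prop :=
  ∀ x ∈ C, ∀ y ∈ C, x ≠ y → d ≤ hammingDist x y

/-- The largest size of a code of length `n` and minimum distance at least `d` with the
property `P`. -/
noncomputable def largest (n d : ℕ) (P : Finset (Fin n → Bool) → Prop) : ℕ :=
  sSup {m | ∃ C : Finset (Fin n → Bool), HasDist C d ∧ P C ∧ C.card = m}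

/-- The largest size of a code of length `n` and minimum distance at least `d` which is closed
under all operations in `F`. -/
noncomputable def size (F : Set Op) (n d : ℕ) : ℕ :=
  largest n d (fun C => ∀ f ∈ F, ClosedUnder f C)

/-- Linear codes. -/
def IsLinear {n : ℕ} (C : Finset (Fin n → Bool)) : Prop :=
  (fun _ => false) ∈ C ∧ ∀ x ∈ C, ∀ y ∈ C, (fun j => x j ^^ y j) ∈ C

/-- Self-complementary codes. -/
def IsSelfComplementary {n : ℕ} (C : Finset (Fin n → Bool)) : Prop :=
  ∀ x ∈ C, (fun j => !x j) ∈ C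

theorem bdd (n d : ℕ) (P : Finset (Fin n → Bool) → Prop) :
    BddAbove {m | ∃ C : Finset (Fin n → Bool), HasDist C d ∧ P C ∧ C.card = m} := by
  refine ⟨2 ^ n, ?_⟩
  rintro m ⟨C, _, _, rfl⟩
  have := Finset.card_le_univ C
  simpa using this

theorem le_largest {n d : ℕ} {P : Finset (Fin n → Bool) → Prop} {C : Finset (Fin n → Bool)}
    (h1 : HasDist C d) (h2 : P C) : C.card ≤ largest n d P :=
  le_csSup (bdd n d P) ⟨C, h1, h2, rfl⟩

theorem largest_le {n d b : ℕ} {P : Finset (Fin n → Bool) → Prop}
    (h : ∀ C : Finset (Fin n → Bool), HasDist C d → P C → C.card ≤ b) : largest n d P ≤ b := by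
  rcases Set.eq_empty_or_nonempty
    {m | ∃ C : Finset (Fin n → Bool), HasDist C d ∧ P C ∧ C.card = m} with h0 | h0
  · unfold largest
    rw [h0]
    simp
  · refine csSup_le h0 ?_
    rintro m ⟨C, h1, h2, rfl⟩
    exact h C h1 h2

theorem closedUnder_iff {n : ℕ} (f : Op) (C : Finset (Fin n → Bool)) :
    ClosedUnder f C ↔ Pool.Agent.H523R4.BC.Closed f.2 (C : Set (Fin n → Bool)) := Iff.rfl

theorem case_one (F : Set Op) (hF : ∃ f ∈ F, ¬ IsAffine f) (n d : ℕ) (hd : 0 < d) (hdn : d ≤ n) :
    size F n d = 2 ^ (n / d) := by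
  apply le_antisymm
  · obtain ⟨f, hf, hna⟩ := hF
    refine largest_le fun C h1 h2 => ?_
    exact Pool.Agent.X27.Code.nonaffine_bound f.2 hna C (h2 f hf) d hd h1
  · obtain ⟨C, hC, h1, h2⟩ := Pool.Agent.X27.Code.block_code (n := n) hd hdn
    rw [← hC]
    exact le_largest h1 fun f _ => h2 f.1 f.2

theorem linOne_le (F : Set Op) (hF : ∀ f ∈ F, IsAffine f) (n d : ℕ) :
    largest n d (fun C => IsLinear C ∧ (fun _ => true) ∈ C) ≤ size F n d := by
  refine largest_le fun C h1 h2 => ?_
  exact le_largest h1 fun f hf =>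
    Pool.Agent.X27.Code.linear_closed f.2 (hF f hf) C h2.1 h2.2

theorem gv (n d : ℕ) (hd : 0 < d) (hdn : d ≤ n) :
    2 ^ n ≤ largest n d (fun C => IsLinear C ∧ (fun _ => true) ∈ C) *
      ∑ i ∈ range d, n.choose i := by
  obtain ⟨C, h1, h2, h3, h4⟩ := Pool.Agent.X27.Code.gilbert (n := n) hd hdn
  exact h4.trans (Nat.mul_le_mul_right _ (le_largest h3 ⟨h1, h2⟩))

theorem le_lin (F : Set Op) (hF : ∀ f ∈ F, IsAffine f)
    (hdep : ∃ f ∈ F, ∃ i j : Fin f.1, i ≠ j ∧ Depends f i ∧ Depends f j) (n d : ℕ) :
    size F n d ≤ largest n d (fun C => IsLinear C) := by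
  classical
  obtain ⟨f, hf, i, j, hij, hi, hj⟩ := hdep
  refine largest_le fun C h1 h2 => ?_
  rcases C.eq_empty_or_nonempty with h0 | ⟨c, hc⟩
  · rw [h0]; simp
  have hx := Pool.Agent.X27.Code.xor_closed f.2 (hF f hf) i j hij hi hj
    (C : Set (Fin n → Bool)) (h2 f hf)
  obtain ⟨C', hcard, hdist, hmem⟩ := Pool.Agent.X27.Code.translate_code C c d h1
  rw [← hcard]
  refine le_largest hdist ⟨?_, ?_⟩
  · rw [hmem]
    simpa using hc
  · intro x hx' y hy'
    rw [hmem] at hx' hy' ⊢
    have h3 := hx _ hx' _ hy' c hc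
    have e : (fun l => ((x l ^^ c l) ^^ (y l ^^ c l)) ^^ c l) = (fun j => (x j ^^ y j) ^^ c j) := by
      funext l
      cases x l <;> cases y l <;> cases c l <;> rfl
    rw [e] at h3
    exact h3

theorem sc_le (F : Set Op) (hF : ∀ f ∈ F, ∀ i j : Fin f.1, Depends f i → Depends f j → i = j)
    (n d : ℕ) : largest n d (fun C => IsSelfComplementary C) ≤ size F n d := by
  classical
  refine largest_le fun C h1 h2 => ?_
  rcases C.eq_empty_or_nonempty with h0 | ⟨c, hc⟩
  · rw [h0]; simp
  obtain ⟨C', hcard, hdist, hmem⟩ := Pool.Agent.X27.Code.translate_code C c d h1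
  rw [← hcard]
  have hzero : (fun _ => false) ∈ C' := by
    rw [hmem]; simpa using hc
  have hsc : ∀ x ∈ C', (fun j => !x j) ∈ C' := by
    intro x hx
    rw [hmem] at hx ⊢
    have h3 := h2 _ hx
    have e : (fun j => !(x j ^^ c j)) = (fun j => (!x j) ^^ c j) := by
      funext l
      cases x l <;> cases c l <;> rfl
    rw [e] at h3
    exact h3
  have hone : (fun _ => true) ∈ C' := hsc _ hzero
  refine le_largest hdist fun f hf a ha => ?_
  by_cases hdep : ∃ i, Depends f i
  · obtain ⟨i, hi⟩ := hdep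
    have huniq : ∀ s, Pool.Agent.H523R4.BC.DependsOn f.2 s → s = i := fun s hs =>
      hF f hf s i hs hi
    have h3 : ∀ x : Fin f.1 → Bool, f.2 x = f.2 (fun _ => x i) := fun x =>
      Pool.Agent.X27.Code.eq_of_dep f.2 _ _ fun s hs => by rw [huniq s hs]
    have h4 : (fun j => f.2 (fun s => a s j)) = (fun j => f.2 (fun _ => a i j)) := by
      funext j; rw [h3]
    rw [h4]
    cases h5 : f.2 (fun _ => false) <;> cases h6 : f.2 (fun _ => true)
    · have e : (fun j => f.2 (fun _ => a i j)) = (fun _ => false) := by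
        funext j; cases a i j
        · exact h5
        · exact h6
      rw [e]; exact hzero
    · have e : (fun j => f.2 (fun _ => a i j)) = a i := by
        funext j; cases a i j
        · exact h5
        · exact h6
      rw [e]; exact ha i
    · have e : (fun j => f.2 (fun _ => a i j)) = (fun j => !a i j) := by
        funext j; cases a i j
        · exact h5
        · exact h6
      rw [e]; exact hsc _ (ha i)
    · have e : (fun j => f.2 (fun _ => a i j)) = (fun _ => true) := by
        funext j; cases a i j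
        · exact h5
        · exact h6
      rw [e]; exact hone
  · push Not at hdep
    have h3 : (fun j => f.2 (fun s => a s j)) = (fun _ => f.2 (fun _ => false)) := by
      funext j
      exact Pool.Agent.X27.Code.eq_of_dep f.2 _ _ fun s hs => absurd hs (hdep s)
    rw [h3]
    cases f.2 (fun _ => false)
    · exact hzero
    · exact hone

theorem ceil_pos (δ : ℝ) (h0 : 0 < δ) (h1 : δ < 1 / 2) (n : ℕ) (hn : 1 ≤ n) :
    0 < ⌈δ * n⌉₊ ∧ ⌈δ * n⌉₊ ≤ n := by
  have hn' : (1 : ℝ) ≤ n := by exact_mod_cast hn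
  refine ⟨Nat.ceil_pos.2 (by positivity), Nat.ceil_le.2 (by nlinarith)⟩

/-- **Binary codes closed under Boolean operations.** -/
theorem result :
    -- 1. exact value, if some operation is not affine
    (∀ F : Set Op, (∃ f ∈ F, ¬ IsAffine f) → ∀ n d : ℕ, 1 ≤ d → d ≤ n →
      size F n d = 2 ^ (n / d)) ∧
    -- 2. affine operations: linear codes
    (∀ F : Set Op, (∀ f ∈ F, IsAffine f) →
      (∃ f ∈ F, ∃ i j : Fin f.1, i ≠ j ∧ Depends f i ∧ Depends f j) → ∀ n d : ℕ,
      largest n d (fun C => IsLinear C ∧ (fun _ => true) ∈ C) ≤ size F n d ∧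
      size F n d ≤ largest n d (fun C => IsLinear C)) ∧
    -- 3. operations of at most one variable: all codes
    (∀ F : Set Op, (∀ f ∈ F, ∀ i j : Fin f.1, Depends f i → Depends f j → i = j) → ∀ n d : ℕ,
      largest n d (fun C => IsSelfComplementary C) ≤ size F n d ∧
      size F n d ≤ size ∅ n d) ∧
    -- the Gilbert-Varshamov bound for affine operations
    (∀ F : Set Op, (∀ f ∈ F, IsAffine f) → ∀ n d : ℕ, 1 ≤ d → d ≤ n →
      2 ^ n ≤ size F n d * ∑ i ∈ range d, n.choose i) ∧
    -- the dichotomy for the rate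
    (∀ F : Set Op,
      (∀ δ : ℝ, 0 < δ → δ < 1 / 2 →
        Tendsto (fun n : ℕ => Real.logb 2 (size F n ⌈δ * n⌉₊) / n) atTop (nhds 0)) ∨
      (∀ δ : ℝ, 0 < δ → δ < 1 / 2 → ∀ n : ℕ, 1 ≤ n →
        1 - Real.binEntropy δ / Real.log 2 ≤ Real.logb 2 (size F n ⌈δ * n⌉₊) / n)) ∧
    -- pieces of arbitrary codes
    (∀ (n d : ℕ), 1 ≤ d → ∀ C : Finset (Fin n → Bool), HasDist C d →
      ∀ (m : ℕ) (B : Fin m → Finset (Fin n → Bool)), (∀ i, B i ⊆ C) →
      (∀ x ∈ C, ∃ i, x ∈ B i) → (∀ i, ∃ f : Op, ¬ IsAffine f ∧ ClosedUnder f (B i)) →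
      C.card ≤ m * 2 ^ (n / d)) := by
  classical
  refine ⟨fun F hF n d hd hdn => case_one F hF n d hd hdn,
    fun F hF hdep n d => ⟨linOne_le F hF n d, le_lin F hF hdep n d⟩,
    fun F hF n d => ⟨sc_le F hF n d, ?_⟩, fun F hF n d hd hdn => ?_, fun F => ?_, ?_⟩
  · refine largest_le fun C h1 _ => ?_
    exact le_largest h1 (by intro f hf; exact absurd hf (by simp))
  · exact (gv n d hd hdn).trans (Nat.mul_le_mul_right _ (linOne_le F hF n d))
  · by_cases hF : ∃ f ∈ F, ¬ IsAffine f
    · left
      intro δ h0 h1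
      have hlim : Tendsto (fun n : ℕ => (1 / δ) / (n : ℝ)) atTop (nhds 0) :=
        tendsto_const_div_atTop_nhds_zero_nat (1 / δ)
      refine squeeze_zero' ?_ ?_ hlim
      · filter_upwards [eventually_ge_atTop 1] with n hn
        obtain ⟨h2, h3⟩ := ceil_pos δ h0 h1 n hn
        rw [case_one F hF n _ h2 h3]
        have : (1 : ℝ) ≤ ((2 ^ (n / ⌈δ * (n : ℝ)⌉₊) : ℕ) : ℝ) := by
          exact_mod_cast Nat.one_le_two_pow
        exact div_nonneg (Real.logb_nonneg (by norm_num) this) (Nat.cast_nonneg n)
      · filter_upwards [eventually_ge_atTop 1] with n hn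
        obtain ⟨h2, h3⟩ := ceil_pos δ h0 h1 n hn
        rw [case_one F hF n _ h2 h3]
        have hn' : (0 : ℝ) < n := by exact_mod_cast hn
        refine div_le_div_of_nonneg_right ?_ hn'.le
        rw [Nat.cast_pow, Nat.cast_two, Real.logb_pow, Real.logb_self_eq_one (by norm_num), mul_one]
        have h4 : ((n / ⌈δ * (n : ℝ)⌉₊ : ℕ) : ℝ) ≤ (n : ℝ) / (⌈δ * (n : ℝ)⌉₊ : ℝ) := Nat.cast_div_le
        refine h4.trans ?_
        have h5 : δ * n ≤ (⌈δ * (n : ℝ)⌉₊ : ℝ) := Nat.le_ceil _
        rw [div_le_div_iff₀ (by exact_mod_cast h2) h0]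
        linarith
    · right
      push Not at hF
      intro δ h0 h1 n hn
      obtain ⟨h2, h3⟩ := ceil_pos δ h0 h1 n hn
      have hn' : (0 : ℝ) < n := by exact_mod_cast hn
      have h4 := (gv n _ h2 h3).trans (Nat.mul_le_mul_right _ (linOne_le F hF n ⌈δ * (n : ℝ)⌉₊))
      have h5 := Pool.Agent.X27.Code.volume_le δ h0 h1 n
      set s := size F n ⌈δ * (n : ℝ)⌉₊ with hs
      set V := ∑ i ∈ range ⌈δ * (n : ℝ)⌉₊, n.choose i with hV
      have h6 : ((2 : ℝ) ^ n) ≤ (s : ℝ) * (V : ℝ) := by exact_mod_cast h4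
      have hspos : (0 : ℝ) < s := by
        rcases Nat.eq_zero_or_pos s with hz | hz
        · rw [hz] at h6
          have : (0 : ℝ) < 2 ^ n := by positivity
          simp at h6
          linarith
        · exact_mod_cast hz
      have h7 : ((2 : ℝ) ^ n) ≤ (s : ℝ) * Real.exp (n * Real.binEntropy δ) :=
        h6.trans (mul_le_mul_of_nonneg_left h5 hspos.le)
      have h8 := Real.log_le_log (by positivity) h7
      rw [Real.log_mul hspos.ne' (Real.exp_pos _).ne', Real.log_exp, Real.log_pow] at h8
      have hl2 : 0 < Real.log 2 := Real.log_pos (by norm_num)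
      rw [Real.logb, le_div_iff₀ hn', le_div_iff₀ hl2]
      have e : (1 - Real.binEntropy δ / Real.log 2) * n * Real.log 2 =
          n * Real.log 2 - n * Real.binEntropy δ := by
        field_simp
      rw [e]
      linarith
  · intro n d hd C hC m B hB hcov hcl
    have h1 : ∀ i, (B i).card ≤ 2 ^ (n / d) := by
      intro i
      obtain ⟨f, hf, hcf⟩ := hcl i
      exact Pool.Agent.X27.Code.nonaffine_bound f.2 hf (B i) hcf d hd
        fun x hx y hy hxy => hC x (hB i hx) y (hB i hy) hxy
    have h2 : C ⊆ univ.biUnion B := by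
      intro x hx
      obtain ⟨i, hi⟩ := hcov x hx
      exact Finset.mem_biUnion.2 ⟨i, Finset.mem_univ _, hi⟩
    calc C.card ≤ (univ.biUnion B).card := Finset.card_le_card h2
      _ ≤ ∑ i : Fin m, (B i).card := Finset.card_biUnion_le
      _ ≤ ∑ _i : Fin m, 2 ^ (n / d) := Finset.sum_le_sum fun i _ => h1 i
      _ = m * 2 ^ (n / d) := by simp

end Pool.Agent.Results.MP_0430e4_lc.ClosedUnderOperations
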