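import Pool.Agent.Results.MP_0430e4_lc.LinearProgrammingLimit

/-!
# MP_0430e4_lc: Delsarte's linear program is asymptotically strictly better than the second
linear programming bound, for every `0 < δ < 1/2`

The starting file `LinearProgrammingLimit` computes the limit `θ` of `(1/n) log₂ LP(n, ⌈δ n⌉)`; here
we compare it with the bound `B(δ)` of McEliece, Rodemich, Rumsey and Welch.
-/

set_option autoImplicit false

open Filter Topology

namespace Pool.Agent.Results.MP_0430e4_lc.DelsarteBelowSecondBound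

open Pool.Agent.Results.MP_0430e4_lc.LinearProgrammingLimit (A LP Curve h H η)

/-- The bracket `1 + h(u²) - h(u² + 2 δ u + 2 δ)`. -/
noncomputable def bracket (δ u : ℝ) : ℝ := 1 + h (u ^ 2) - h (u ^ 2 + 2 * δ * u + 2 * δ)

/-- The second linear programming bound, `B(δ) = min over 0 < u ≤ 1 - 2 δ` of the bracket. -/
noncomputable def B (δ : ℝ) : ℝ := sInf {b | ∃ u : ℝ, 0 < u ∧ u ≤ 1 - 2 * δ ∧ b = bracket δ u}

lemma h_eq (x : ℝ) : h x = Pool.Agent.TH753.FF.hh x := by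
  unfold LinearProgrammingLimit.h LinearProgrammingLimit.H LinearProgrammingLimit.η
    Pool.Agent.TH753.FF.hh Real.negMulLog Real.logb
  ring

lemma h_cont : Continuous h := by
  have : h = Pool.Agent.TH753.FF.hh := funext h_eq
  rw [this]
  exact Pool.Agent.TH753.FF.hh_cont

lemma lt_B {δ θ : ℝ} (h1 : δ < 1 / 2)
    (hb : ∀ u : ℝ, 0 ≤ u → u ≤ 1 - 2 * δ → θ < bracket δ u) : θ < B δ := by
  have hc : ContinuousOn (bracket δ) (Set.Icc 0 (1 - 2 * δ)) := by
    apply Continuous.continuousOn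
    unfold bracket
    have e1 : Continuous fun u : ℝ => h (u ^ 2) := h_cont.comp (by fun_prop)
    have e2 : Continuous fun u : ℝ => h (u ^ 2 + 2 * δ * u + 2 * δ) := h_cont.comp (by fun_prop)
    exact (continuous_const.add e1).sub e2
  obtain ⟨u, hu, hmin⟩ := isCompact_Icc.exists_isMinOn
    (Set.nonempty_Icc.2 (by linarith : (0 : ℝ) ≤ 1 - 2 * δ)) hc
  refine lt_of_lt_of_le (hb u hu.1 hu.2) ?_
  refine le_csInf ⟨_, 1 - 2 * δ, by linarith, le_rfl, rfl⟩ ?_
  rintro b ⟨v, hv0, hv1, rfl⟩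
  exact hmin ⟨hv0.le, hv1⟩

/-- every point of the curve lies strictly below the second linear programming bound -/
theorem curve_lt {δ θ : ℝ} (h0 : 0 < δ) (h1 : δ < 1 / 2) (h : (δ, θ) ∈ Curve) : θ < B δ := by
  refine lt_B h1 fun u hu0 hu1 => ?_
  unfold bracket
  rw [h_eq, h_eq]
  rcases h with ⟨e, he, hp⟩ | ⟨e, he, hp⟩ | hp
  · obtain ⟨h2, h3⟩ := Prod.mk.inj hp
    have h4 : 1 - 2 * δ = Pool.Agent.TH753.FF.Wl e 1 / Pool.Agent.TH753.FF.Zl e 1 := by
      have h5 := Pool.Agent.TH41.BL.CV7f.al_one e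
      rw [← LinearProgrammingLimit.α_one] at h5
      have h6 : Pool.Agent.TH753.FF.Wl e 1 / Pool.Agent.TH753.FF.Zl e 1 =
        LinearProgrammingLimit.α 1 e := h5
      rw [h6, h2]
      ring
    have h7 := Pool.Agent.TH753.FF.lattice_lt he 1 h0 h4 hu0 hu1
    rw [Pool.Agent.TH41.BL.CV7f.val_one he] at h7
    rw [h3]
    exact h7
  · obtain ⟨h2, h3⟩ := Prod.mk.inj hp
    have h4 : 1 - 2 * δ = Pool.Agent.TH753.FF.Wl e 0 / Pool.Agent.TH753.FF.Zl e 0 := by
      have h5 := Pool.Agent.TH41.BL.CV7f.al_zero e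
      rw [← LinearProgrammingLimit.α_zero] at h5
      have h6 : Pool.Agent.TH753.FF.Wl e 0 / Pool.Agent.TH753.FF.Zl e 0 =
        LinearProgrammingLimit.α 0 e := h5
      rw [h6, h2]
      ring
    have h7 := Pool.Agent.TH753.FF.lattice_lt he 0 h0 h4 hu0 hu1
    rw [Pool.Agent.TH41.BL.CV7f.val_zero he] at h7
    rw [h3]
    exact h7
  · obtain ⟨h2, h3⟩ := Prod.mk.inj hp
    have h4 := Pool.Agent.TH753.FF.arcsine_lt h0 (by rw [h2]; ring) hu0 hu1
    rw [h3]
    exact h4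

/-- **Delsarte's linear program against the second linear programming bound.** For every
`0 < δ < 1/2`, `(1/n) log₂ LP(n, ⌈δ n⌉)` converges, and its limit is strictly smaller than
`B(δ)`. -/
theorem result (δ : ℝ) (h0 : 0 < δ) (h1 : δ < 1 / 2) :
    ∃ θ : ℝ, Tendsto (fun n : ℕ => Real.logb 2 (LP n ⌈δ * n⌉₊) / n) atTop (𝓝 θ) ∧ θ < B δ := by
  obtain ⟨_, r2, r3, _⟩ := LinearProgrammingLimit.result
  obtain ⟨θ, hθ⟩ := r2 δ h0 h1
  exact ⟨θ, r3 δ θ hθ, curve_lt h0 h1 hθ⟩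

end Pool.Agent.Results.MP_0430e4_lc.DelsarteBelowSecondBound
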