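import Pool.Agent.Y570.KP.Main
import Pool.Agent.Y570.KP.Complete
import Pool.Agent.X48.Sch
import Pool.Agent.Results.MP_0430e4_lc.LinearProgrammingLimit

/-!
# MP_0430e4_lc: the `k`-point semidefinite bounds and the bound of Schrijver have the same
exponential rate as Delsarte's linear program

The `k`-point bounds for binary codes use the pseudo-probabilities of sets of at most `k` words;
they are at most Delsarte's bound for `k ≥ 2`, decrease with `k`, and are exact for `k ≥ 2^n`.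
We show that for every fixed `k ≥ 2` and every `0 < δ < 1/2` the exponential rate of the `k`-point
bound is the rate `θ` of Delsarte's linear program, which is given by the explicit curve of the
starting file `LinearProgrammingLimit`; the same is true for the semidefinite bound of Schrijver
(2005), which uses triples of words, and for the `k`-point bounds restricted to any set of words or
with arbitrary weights, combined with the inequality of Elias and Bassalygo.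
-/

set_option autoImplicit false

open Filter Topology

namespace Pool.Agent.Results.MP_0430e4_lc.KPointBounds

open Pool.Agent.Results.MP_0430e4_lc.LinearProgrammingLimit (A LP Curve)

/-- The pseudo-probability of `D ∪ S ⊆ C, E ∩ C = ∅`:
`∑_{F ⊆ E} (-1)^|F| y(D ∪ F ∪ S)`. -/
def pseudoProb {n : ℕ} (y : Finset (Fin n → Bool) → ℝ) (D E S : Finset (Fin n → Bool)) : ℝ :=
  ∑ F ∈ E.powerset, (-1) ^ F.card * y (D ∪ F ∪ S)

/-- The solutions of the `k`-point program for binary codes of length `n` and minimum distance `d`: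
functions `y(S)` which behave like the probability of `S ⊆ C` for a random code `C`. We have
`y(∅) = 1`, `y(S) = 0` if `S` has two words at distance less than `d`, all pseudo-probabilities of
`D ⊆ C, E ∩ C = ∅` with `|D| + |E| ≤ k` are nonnegative, and for all `D`, `E` with
`|D| + |E| ≤ k - 2` the matrix, indexed by `∅` and the words `x`, with entries the
pseudo-probabilities of `D ∪ {s, t} ⊆ C, E ∩ C = ∅` is positive semidefinite. -/
structure IsPseudoCode (k n d : ℕ) (y : Finset (Fin n → Bool) → ℝ) : Prop where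
  one : y ∅ = 1
  dist : ∀ S : Finset (Fin n → Bool), ∀ u ∈ S, ∀ v ∈ S, u ≠ v → hammingDist u v < d → y S = 0
  nonneg : ∀ D E : Finset (Fin n → Bool), D.card + E.card ≤ k → 0 ≤ pseudoProb y D E ∅
  psd : ∀ D E : Finset (Fin n → Bool), D.card + E.card + 2 ≤ k →
    ∀ a : Option (Fin n → Bool) → ℝ,
      0 ≤ ∑ s, ∑ t, a s * a t * pseudoProb y D E (s.toFinset ∪ t.toFinset)

/-- The weighted `k`-point bound: the largest value of `∑_x w(x) y({x})`. -/
noncomputable def weightedBound (k n d : ℕ) (w : (Fin n → Bool) → ℝ) : ℝ :=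
  sSup {v : ℝ | ∃ y, IsPseudoCode k n d y ∧ v = ∑ x, w x * y {x}}

/-- The `k`-point bound: the largest value of `∑_x y({x})`. -/
noncomputable def kPoint (k n d : ℕ) : ℝ :=
  sSup {v : ℝ | ∃ y, IsPseudoCode k n d y ∧ v = ∑ x, y {x}}

/-- The weight of a word. -/
def wt {n : ℕ} (u : Fin n → Bool) : ℕ := hammingDist (fun _ => false) u

/-- The solutions of Schrijver's semidefinite program. The variable `x i j l` belongs to the triples
`0, u, v` of words with `|u| = i`, `|v| = j`, `d(u, v) = l`; in the notation of Schrijver this is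
`x_{i,j}^t` with `l = i + j - 2 t`. -/
structure IsSchrijver (n d : ℕ) (x : ℕ → ℕ → ℕ → ℝ) : Prop where
  zero : x 0 0 0 = 1
  symm : ∀ u v : Fin n → Bool,
    x (wt u) (wt v) (hammingDist u v) = x (wt v) (wt u) (hammingDist u v)
  symm' : ∀ u v : Fin n → Bool,
    x (wt u) (wt v) (hammingDist u v) = x (wt u) (hammingDist u v) (wt v)
  nonneg : ∀ u v : Fin n → Bool, 0 ≤ x (wt u) (wt v) (hammingDist u v)
  le : ∀ u v : Fin n → Bool, x (wt u) (wt v) (hammingDist u v) ≤ x (wt u) 0 (wt u)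
  add_le : ∀ u v : Fin n → Bool,
    x (wt u) 0 (wt u) + x (wt v) 0 (wt v) ≤ 1 + x (wt u) (wt v) (hammingDist u v)
  dist : ∀ u v : Fin n → Bool, 0 < wt u → wt u < d → x (wt u) (wt v) (hammingDist u v) = 0
  psd : ∀ a : (Fin n → Bool) → ℝ,
    0 ≤ ∑ u, ∑ v, a u * a v * x (wt u) (wt v) (hammingDist u v)
  psd' : ∀ a : (Fin n → Bool) → ℝ,
    0 ≤ ∑ u, ∑ v, a u * a v * (x (hammingDist u v) 0 (hammingDist u v) -
      x (wt u) (wt v) (hammingDist u v))

/-- Schrijver's bound: the largest value of `∑_i (n choose i) x_{i,0}^0 = ∑_u x_{|u|,0}^0`. -/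
noncomputable def schrijver (n d : ℕ) : ℝ :=
  sSup {v : ℝ | ∃ x, IsSchrijver n d x ∧ v = ∑ u : Fin n → Bool, x (wt u) 0 (wt u)}

open Pool.Agent.TH41.BL Pool.Agent.Y570

lemma sch_iff (n d : ℕ) (x : ℕ → ℕ → ℕ → ℝ) :
    IsSchrijver n d x ↔ Pool.Agent.X48.Sch.IsS n d x :=
  ⟨fun h => ⟨h.zero, h.symm, h.symm', h.nonneg, h.le, h.add_le, h.dist, h.psd, h.psd'⟩,
    fun h => ⟨h.zero, h.symm, h.symm', h.nonneg, h.le, h.add_le, h.dist, h.psd, h.psd'⟩⟩

lemma pc_iff (k n d : ℕ) (y : Finset (Fin n → Bool) → ℝ) :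
    IsPseudoCode k n d y ↔ KP.PC n d k y :=
  ⟨fun h => ⟨h.one, h.dist, h.nonneg, h.psd⟩, fun h => ⟨h.one, h.dist, h.nonneg, h.psd⟩⟩

lemma wb_eq (k n d : ℕ) (w : (Fin n → Bool) → ℝ) : weightedBound k n d w = KP.SW n d k w := by
  unfold weightedBound KP.SW
  simp only [pc_iff]

lemma kp_eq (k n d : ℕ) : kPoint k n d = KP.SW n d k (fun _ => 1) := by
  unfold kPoint KP.SW
  simp only [pc_iff, one_mul]

lemma A_bdd (n d : ℕ) : BddAbove {m | ∃ C : Finset (Fin n → Bool),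
    (∀ x ∈ C, ∀ y ∈ C, x ≠ y → d ≤ hammingDist x y) ∧ C.card = m} := by
  refine ⟨Fintype.card (Fin n → Bool), ?_⟩
  rintro k ⟨C, -, rfl⟩
  exact Finset.card_le_univ C

lemma A_mem (n d : ℕ) : ∃ C : Finset (Fin n → Bool),
    (∀ x ∈ C, ∀ y ∈ C, x ≠ y → d ≤ hammingDist x y) ∧ C.card = A n d := by
  have : A n d ∈ {k | ∃ C : Finset (Fin n → Bool),
      (∀ x ∈ C, ∀ y ∈ C, x ≠ y → d ≤ hammingDist x y) ∧ C.card = k} :=
    Nat.sSup_mem ⟨0, ∅, by simp, by simp⟩ (A_bdd n d)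
  exact this

lemma set_nonempty (k n d : ℕ) : {v : ℝ | ∃ y, KP.PC n d k y ∧ v = ∑ x, (1 : ℝ) * y {x}}.Nonempty := by
  refine ⟨_, _, KP.pc_code ∅ (by simp), rfl⟩

lemma A_le_kp {k n d : ℕ} (hk : 1 ≤ k) : (A n d : ℝ) ≤ kPoint k n d := by
  obtain ⟨C, hC, hcard⟩ := A_mem n d
  rw [kp_eq, ← hcard]
  have := KP.code_le hk C hC (w := fun _ => 1) (fun _ => zero_le_one)
  simpa using this

lemma kp_anti {k k' n d : ℕ} (hk : 1 ≤ k) (hkk : k ≤ k') : kPoint k' n d ≤ kPoint k n d := by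
  rw [kp_eq, kp_eq]
  refine csSup_le_csSup (KP.bdd_SW hk fun _ => zero_le_one) (set_nonempty k' n d) ?_
  rintro v ⟨y, hy, rfl⟩
  exact ⟨y, hy.mono hkk, rfl⟩

lemma kp_full {k n d : ℕ} (hk : 2 ^ n ≤ k) : kPoint k n d = A n d := by
  have hk1 : 1 ≤ k := le_trans Nat.one_le_two_pow hk
  refine le_antisymm ?_ (A_le_kp hk1)
  rw [kp_eq]
  refine csSup_le (set_nonempty k n d) ?_
  rintro v ⟨y, hy, rfl⟩
  simp only [one_mul]
  exact KP.full_level hk hy (A n d) fun C hC => le_csSup (A_bdd n d) ⟨C, hC, rfl⟩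

lemma kp_le_lp {k n d : ℕ} (hk : 2 ≤ k) (hd : 1 ≤ d) : kPoint k n d ≤ LP n d := by
  rw [kp_eq, LinearProgrammingLimit.LP_eq]
  refine csSup_le (set_nonempty k n d) ?_
  rintro v ⟨y, hy, rfl⟩
  simp only [one_mul]
  refine le_csInf ⟨_, _, DELf.feas_one hd, rfl⟩ ?_
  rintro v ⟨l, hl, rfl⟩
  exact hy.le_lp k7_chr hk hl

lemma ke {δ θ : ℝ} (h : (δ, θ) ∈ Curve) : KP.Ke δ (θ * Real.log 2) := by
  obtain ⟨h0, -, -⟩ := LinearProgrammingLimit.point h
  rcases h with ⟨e, he, hp⟩ | ⟨e, he, hp⟩ | hp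
  · obtain ⟨h2, h3⟩ := Prod.mk.inj hp
    subst h2 h3
    rw [LinearProgrammingLimit.α_one] at h0 ⊢
    rw [LinearProgrammingLimit.S_eq]
    exact KP.ke_two k7_chr he h0.le
  · obtain ⟨h2, h3⟩ := Prod.mk.inj hp
    subst h2 h3
    rw [LinearProgrammingLimit.α_zero]
    rw [LinearProgrammingLimit.S_eq]
    exact KP.ke_one k7_chr he
  · obtain ⟨h2, h3⟩ := Prod.mk.inj hp
    subst h2 h3
    exact KP.ke_mid k7_chr

/-- lower bound for the weighted bounds -/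
lemma lower {δ θ : ℝ} (h : (δ, θ) ∈ Curve) {k : ℕ} (hk : 1 ≤ k) {ε : ℝ} (hε : 0 < ε) :
    ∀ᶠ n : ℕ in atTop, ∀ w : (Fin n → Bool) → ℝ, (∀ x, 0 ≤ w x) →
      (2 : ℝ) ^ ((θ - ε) * n) * ∑ x, w x ≤ 2 ^ n * weightedBound k n ⌈δ * n⌉₊ w := by
  have hlog : 0 < Real.log 2 := Real.log_pos (by norm_num)
  obtain ⟨h0, -, -⟩ := LinearProgrammingLimit.point h
  obtain ⟨n₀, hn₀⟩ := KP.lower hk (ke h) (ε * Real.log 2) (by positivity)
  filter_upwards [eventually_ge_atTop n₀, eventually_ge_atTop 1] with n hn hn1 w hw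
  have hn1' : (1 : ℝ) ≤ n := by exact_mod_cast hn1
  have hd1 : 1 ≤ ⌈δ * n⌉₊ := Nat.one_le_iff_ne_zero.2 (by
    rw [Ne, Nat.ceil_eq_zero, not_le]
    positivity)
  have hd2 : (⌈δ * n⌉₊ : ℝ) ≤ δ * n + 1 := (Nat.ceil_lt_add_one (by positivity)).le
  have h1 := hn₀ n hn ⌈δ * n⌉₊ hd1 hd2 w hw
  rw [wb_eq]
  have h2 : (2 : ℝ) ^ ((θ - ε) * n) = Real.exp (n * (θ * Real.log 2 - ε * Real.log 2)) := by
    rw [Real.rpow_def_of_pos two_pos]
    congr 1
    ring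
  rw [h2]
  exact h1

lemma sch_bdd {n d : ℕ} {x : ℕ → ℕ → ℕ → ℝ} (hd : 1 ≤ d) (h : IsSchrijver n d x) :
    ∑ u : Fin n → Bool, x (wt u) 0 (wt u) ≤ LP n d := by
  rw [LinearProgrammingLimit.LP_eq]
  refine le_csInf ⟨_, _, DELf.feas_one hd, rfl⟩ ?_
  rintro v ⟨l, hl, rfl⟩
  exact ((sch_iff n d x).1 h).le_lp k7_chr hl

/-- lower bound for Schrijver's bound -/
lemma sch_lower {δ θ : ℝ} (h : (δ, θ) ∈ Curve) {ε : ℝ} (hε : 0 < ε) :
    ∀ᶠ n : ℕ in atTop, (2 : ℝ) ^ ((θ - ε) * n) ≤ schrijver n ⌈δ * n⌉₊ ∧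
      schrijver n ⌈δ * n⌉₊ ≤ LP n ⌈δ * n⌉₊ := by
  have hlog : 0 < Real.log 2 := Real.log_pos (by norm_num)
  obtain ⟨h0, -, -⟩ := LinearProgrammingLimit.point h
  have hk : (0 : ℝ) < ε * Real.log 2 := by positivity
  obtain ⟨ε', hε'⟩ : ∃ ε' : ℝ, ε' = ε * Real.log 2 / 26 := ⟨_, rfl⟩
  have hε'0 : 0 < ε' := by rw [hε']; positivity
  obtain ⟨n₀, hn₀⟩ := ke h ε' hε'0
  obtain ⟨n₁, hn₁⟩ := exists_nat_ge (1280 / ε')
  filter_upwards [eventually_ge_atTop n₀, eventually_ge_atTop n₁, eventually_ge_atTop 1] with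
    n hn hn1 hn2
  have hn2' : (1 : ℝ) ≤ n := by exact_mod_cast hn2
  have hn1' : (n₁ : ℝ) ≤ n := by exact_mod_cast hn1
  have hd1 : 1 ≤ ⌈δ * n⌉₊ := Nat.one_le_iff_ne_zero.2 (by
    rw [Ne, Nat.ceil_eq_zero, not_le]
    positivity)
  have hd2 : (⌈δ * n⌉₊ : ℝ) ≤ δ * n + 1 := (Nat.ceil_lt_add_one (by positivity)).le
  obtain ⟨G, hG, hGd⟩ := hn₀ n hn ⌈δ * n⌉₊ hd1 hd2
  obtain ⟨γ, hγ, hγd⟩ := Pool.Agent.X48.Rad.exists_radial hG hGd
  obtain ⟨K, hK⟩ : ∃ K : ℝ, K = Real.exp (n * ε') := ⟨_, rfl⟩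
  obtain ⟨L, hL⟩ : ∃ L : ℝ, L = Real.exp (n * (Real.log 2 - θ * Real.log 2 + ε')) := ⟨_, rfl⟩
  rw [← hK, ← hL] at hγ
  have hK1 : 1 ≤ K := by
    rw [hK]
    exact Real.one_le_exp (by positivity)
  have hK0 : 0 < K := by linarith
  have hL0 : 0 < L := by rw [hL]; exact Real.exp_pos _
  have hL1 : 1 ≤ L := hγ.one_le
  obtain ⟨ρ, hρ⟩ : ∃ ρ : ℝ, ρ = (1280 * K ^ 12 * L)⁻¹ := ⟨_, rfl⟩
  have hρ0 : 0 < ρ := by rw [hρ]; positivity
  have hS : KP.Small K L ρ 3 := by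
    refine ⟨hK1, hL1, hρ0, le_of_eq ?_⟩
    rw [hρ]
    push_cast
    field_simp
    norm_num
  have hval : 2 ^ n * ρ ≤ schrijver n ⌈δ * n⌉₊ := by
    refine (Pool.Agent.X48.Sch.value hd1 hγ hγd hρ0 hS.aux.2.2.1).trans ?_
    refine le_csSup ⟨LP n ⌈δ * n⌉₊, ?_⟩ ⟨_, (sch_iff _ _ _).2
      (Pool.Agent.X48.Sch.isS_of hd1 hγ hγd hS), rfl⟩
    rintro v ⟨x, hx, rfl⟩
    exact sch_bdd hd1 hx
  refine ⟨le_trans ?_ hval, csSup_le ⟨_, _, (sch_iff _ _ _).2
      (Pool.Agent.X48.Sch.isS_of hd1 hγ hγd hS), rfl⟩ ?_⟩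
  · have h2 : (2 : ℝ) ^ n = Real.exp (n * Real.log 2) := by
      rw [Real.exp_nat_mul, Real.exp_log two_pos]
    have h2' : (2 : ℝ) ^ ((θ - ε) * n) = Real.exp (n * (θ * Real.log 2 - ε * Real.log 2)) := by
      rw [Real.rpow_def_of_pos two_pos]
      congr 1
      ring
    have h3 : 1280 ≤ Real.exp (n * ε') := by
      have h4 : 1280 / ε' ≤ n := hn₁.trans hn1'
      rw [div_le_iff₀ hε'0] at h4
      have h5 := Real.add_one_le_exp (n * ε')
      linarith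
    rw [h2', hρ, h2, ← div_eq_mul_inv, le_div_iff₀ (by positivity)]
    have h7 : K ^ 12 = Real.exp (n * (12 * ε')) := by
      rw [hK, ← Real.exp_nat_mul]
      congr 1
      push_cast
      ring
    calc Real.exp (n * (θ * Real.log 2 - ε * Real.log 2)) * (1280 * K ^ 12 * L)
        ≤ Real.exp (n * (θ * Real.log 2 - ε * Real.log 2)) *
          (Real.exp (n * ε') * K ^ 12 * L) := by gcongr
      _ = Real.exp (n * Real.log 2 - n * (ε * Real.log 2 - 14 * ε')) := by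
          rw [h7, hL, ← Real.exp_add, ← Real.exp_add, ← Real.exp_add]
          congr 1
          ring
      _ ≤ Real.exp (n * Real.log 2) := by
          rw [Real.exp_le_exp]
          have : 0 ≤ n * (ε * Real.log 2 - 14 * ε') := by
            refine mul_nonneg (by linarith) ?_
            rw [hε']
            linarith
          linarith
  · rintro v ⟨x, hx, rfl⟩
    exact sch_bdd hd1 hx

lemma sch_limit {δ θ : ℝ} (h : (δ, θ) ∈ Curve) :
    Tendsto (fun n : ℕ => Real.logb 2 (schrijver n ⌈δ * n⌉₊) / n) atTop (𝓝 θ) := by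
  have hup := LinearProgrammingLimit.result.2.2.1 δ θ h
  rw [tendsto_order] at hup ⊢
  refine ⟨fun a ha => ?_, fun a ha => ?_⟩
  · have hε : 0 < (θ - a) / 2 := by linarith
    filter_upwards [sch_lower h hε, eventually_ge_atTop 1] with n h1 hn
    have hn' : (0 : ℝ) < n := by exact_mod_cast hn
    rw [lt_div_iff₀ hn']
    have h6 := Real.logb_le_logb_of_le (b := 2) (by norm_num) (by positivity) h1.1
    rw [Real.logb_rpow (by norm_num) (by norm_num)] at h6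
    nlinarith
  · filter_upwards [hup.2 a ha, eventually_ge_atTop 1, sch_lower h one_pos] with n h1 hn h0
    have hn' : (0 : ℝ) < n := by exact_mod_cast hn
    have h6 : 0 < schrijver n ⌈δ * n⌉₊ := lt_of_lt_of_le (by positivity) h0.1
    refine lt_of_le_of_lt ?_ h1
    exact div_le_div_of_nonneg_right (Real.logb_le_logb_of_le (by norm_num) h6 h0.2) hn'.le

/-- every bound between the `k`-point bound and the linear program has the rate `θ` -/
lemma squeeze {δ θ : ℝ} (h : (δ, θ) ∈ Curve) {k : ℕ} (hk : 1 ≤ k) (b : ℕ → ℝ)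
    (hb : ∀ᶠ n : ℕ in atTop, kPoint k n ⌈δ * n⌉₊ ≤ b n ∧ b n ≤ LP n ⌈δ * n⌉₊) :
    Tendsto (fun n : ℕ => Real.logb 2 (b n) / n) atTop (𝓝 θ) := by
  have hup := LinearProgrammingLimit.result.2.2.1 δ θ h
  rw [tendsto_order] at hup ⊢
  refine ⟨fun a ha => ?_, fun a ha => ?_⟩
  · have hε : 0 < (θ - a) / 2 := by linarith
    filter_upwards [lower h hk hε, hb, eventually_ge_atTop 1] with n h1 h2 hn
    have hn' : (0 : ℝ) < n := by exact_mod_cast hn
    have h3 := h1 (fun _ => 1) (fun _ => zero_le_one)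
    rw [wb_eq, ← kp_eq] at h3
    have h4 : ∑ _x : Fin n → Bool, (1 : ℝ) = 2 ^ n := by
      simp
    rw [h4, mul_comm] at h3
    have h5 : (2 : ℝ) ^ ((θ - (θ - a) / 2) * n) ≤ b n :=
      (le_of_mul_le_mul_left h3 (by positivity)).trans h2.1
    rw [lt_div_iff₀ hn']
    have h6 : Real.logb 2 ((2 : ℝ) ^ ((θ - (θ - a) / 2) * n)) ≤ Real.logb 2 (b n) :=
      Real.logb_le_logb_of_le (by norm_num) (by positivity) h5
    rw [Real.logb_rpow (by norm_num) (by norm_num)] at h6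
    nlinarith
  · filter_upwards [hup.2 a ha, hb, eventually_ge_atTop 1, lower h hk one_pos] with n h1 h2 hn h0
    have hn' : (0 : ℝ) < n := by exact_mod_cast hn
    have h3 := h0 (fun _ => 1) (fun _ => zero_le_one)
    rw [wb_eq, ← kp_eq] at h3
    have h4 : ∑ _x : Fin n → Bool, (1 : ℝ) = 2 ^ n := by
      simp
    rw [h4, mul_comm] at h3
    have h5 : (2 : ℝ) ^ ((θ - 1) * n) ≤ b n :=
      (le_of_mul_le_mul_left h3 (by positivity)).trans h2.1
    have h6 : 0 < b n := lt_of_lt_of_le (by positivity) h5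
    refine lt_of_le_of_lt ?_ h1
    exact div_le_div_of_nonneg_right (Real.logb_le_logb_of_le (by norm_num) h6 h2.2) hn'.le

/-- **The `k`-point bounds and Schrijver's bound have the rate of Delsarte's linear program.** -/
theorem result :
    (∀ k n d : ℕ, 1 ≤ k → (A n d : ℝ) ≤ kPoint k n d ∧ kPoint (k + 1) n d ≤ kPoint k n d) ∧
    (∀ k n d : ℕ, 2 ≤ k → 1 ≤ d → kPoint k n d ≤ LP n d) ∧
    (∀ k n d : ℕ, 2 ^ n ≤ k → kPoint k n d = A n d) ∧
    (∀ δ : ℝ, 0 < δ → δ < 1 / 2 → ∃ θ, (δ, θ) ∈ Curve) ∧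
    (∀ δ θ : ℝ, (δ, θ) ∈ Curve → ∀ k : ℕ, 2 ≤ k →
      Tendsto (fun n : ℕ => Real.logb 2 (kPoint k n ⌈δ * n⌉₊) / n) atTop (𝓝 θ) ∧
      (∀ b : ℕ → ℝ, (∀ᶠ n : ℕ in atTop, kPoint k n ⌈δ * n⌉₊ ≤ b n ∧ b n ≤ LP n ⌈δ * n⌉₊) →
        Tendsto (fun n : ℕ => Real.logb 2 (b n) / n) atTop (𝓝 θ)) ∧
      ∀ ε : ℝ, 0 < ε → ∀ᶠ n : ℕ in atTop, ∀ w : (Fin n → Bool) → ℝ, (∀ x, 0 ≤ w x) →
        (2 : ℝ) ^ ((θ - ε) * n) * ∑ x, w x ≤ 2 ^ n * weightedBound k n ⌈δ * n⌉₊ w) ∧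
    (∀ k n d : ℕ, 1 ≤ k → ∀ w : (Fin n → Bool) → ℝ, (∀ x, 0 ≤ w x) →
      (A n d : ℝ) * ∑ x, w x ≤ 2 ^ n * weightedBound k n d w) ∧
    ∀ δ θ : ℝ, (δ, θ) ∈ Curve →
      Tendsto (fun n : ℕ => Real.logb 2 (schrijver n ⌈δ * n⌉₊) / n) atTop (𝓝 θ) := by
  refine ⟨fun k n d hk => ⟨A_le_kp hk, kp_anti hk (Nat.le_succ k)⟩,
    fun k n d hk hd => kp_le_lp hk hd, fun k n d hk => kp_full hk,
    LinearProgrammingLimit.result.2.1, fun δ θ h k hk => ⟨?_, fun b hb => squeeze h (by omega) b hb,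
      fun ε hε => lower h (by omega) hε⟩, fun k n d hk w hw => ?_, fun δ θ h => sch_limit h⟩
  · refine squeeze h (by omega : 1 ≤ k) _ ?_
    filter_upwards [eventually_ge_atTop 1] with n hn
    refine ⟨le_rfl, kp_le_lp hk ?_⟩
    obtain ⟨h0, -, -⟩ := LinearProgrammingLimit.point h
    have hn1' : (1 : ℝ) ≤ n := by exact_mod_cast hn
    refine Nat.one_le_iff_ne_zero.2 ?_
    rw [Ne, Nat.ceil_eq_zero, not_le]
    positivity
  · obtain ⟨C, hC, hcard⟩ := A_mem n d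
    rw [wb_eq, ← hcard]
    exact KP.elias hk hw C hC

end Pool.Agent.Results.MP_0430e4_lc.KPointBounds
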