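import Pool.Agent.X48.LSE2
import Pool.Agent.Results.MP_0430e4_lc.SumOfSquaresLevels
import Pool.Agent.Results.MP_0430e4_lc.KPointBounds

/-!
# MP_0430e4_lc: exponentially many conditionings do not bring the semidefinite bounds down to the
bound of Gilbert and Varshamov

The starting file `SumOfSquaresLevels` shows that the sum-of-squares bounds `SOS s t n d` stay above
the bound of Gilbert and Varshamov for `s, t ≤ c √n`. Here the number `s` of the conditionings may be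
exponentially large, `s ≤ exp(c n / t)`; the bound is exact for `s = 2^n`. In particular all
`k`-point bounds with `k ≤ exp(c n)` have a rate which is at least the mean of the rates of Gilbert
and Varshamov and of the first bound of McEliece, Rodemich, Rumsey and Welch, up to `ε`.
-/

set_option autoImplicit false

open Filter Topology

namespace Pool.Agent.Results.MP_0430e4_lc.ExponentialLevels

open Pool.Agent.Results.MP_0430e4_lc.SumOfSquaresLevels (A SOS H gain)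
open Pool.Agent.Results.MP_0430e4_lc.KPointBounds (kPoint)

open Pool.Agent.TH41.BL Pool.Agent.Y570

/-- the lower bound for the optimum -/
theorem SO_lower2 {δ γ : ℝ} (h0 : 0 < δ) (h1 : δ < 1 / 2)
    (hγ : γ * Real.log 2 <
      (Real.binEntropy (1 / 2 - √(δ * (1 - δ))) + Real.binEntropy δ - Real.log 2) / 2) :
    ∃ c : ℝ, 0 < c ∧ ∃ n₀ : ℕ, ∀ n ≥ n₀, ∀ s t : ℕ, 1 ≤ t → (s : ℝ) ≤ Real.exp (c * n / t) →
      (t : ℝ) ≤ c * √n →
        (2 : ℝ) ^ ((1 - Real.binEntropy δ / Real.log 2 + γ / t) * n) ≤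
          LS.SO s t n ⌈δ * n⌉₊ := by
  have hl2 : 0 < Real.log 2 := Real.log_pos (by norm_num)
  have hg := LS.gain_pos h0 h1
  obtain ⟨γ', hγ'⟩ : ∃ γ' : ℝ, γ' = max (γ * Real.log 2) 0 := ⟨_, rfl⟩
  have hγ0 : 0 ≤ γ' := by
    rw [hγ']
    exact le_max_right _ _
  have hγ1 : γ * Real.log 2 ≤ γ' := by
    rw [hγ']
    exact le_max_left _ _
  have hγ2 : 2 * γ' < Real.binEntropy (1 / 2 - √(δ * (1 - δ))) + Real.binEntropy δ -
      Real.log 2 := by
    have : γ' < (Real.binEntropy (1 / 2 - √(δ * (1 - δ))) + Real.binEntropy δ -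
        Real.log 2) / 2 := by
      rw [hγ']
      exact max_lt hγ (by linarith)
    linarith
  obtain ⟨c, hc0, n₀, h⟩ := Pool.Agent.X48.LSE.lower2 k7_chr h0 h1 hγ0 hγ2
  refine ⟨c, hc0, n₀, fun n hn s t ht hs htc => ?_⟩
  obtain ⟨y, hy1, hy2⟩ := h n hn s t ht hs htc
  have h3 : ∑ x, y {x} ≤ LS.SO s t n ⌈δ * n⌉₊ := le_csSup (LS.bdd ht) ⟨y, hy1, rfl⟩
  refine le_trans ?_ h3
  rw [hy2]
  have h2n : (2 : ℝ) ^ n = Real.exp (n * Real.log 2) := by
    rw [mul_comm, Real.exp_mul, Real.exp_log (by norm_num), Real.rpow_natCast]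
  rw [h2n, ← Real.exp_add, Real.rpow_def_of_pos (by norm_num : (0 : ℝ) < 2), Real.exp_le_exp]
  have ht0 : (0 : ℝ) < t := by exact_mod_cast ht
  have hn0 : (0 : ℝ) ≤ n := Nat.cast_nonneg _
  have h4 : Real.log 2 * ((1 - Real.binEntropy δ / Real.log 2 + γ / t) * n) =
      n * Real.log 2 - n * Real.binEntropy δ + (γ * Real.log 2) * n / t := by
    field_simp
  rw [h4]
  have h5 : (γ * Real.log 2) * n / t ≤ γ' * n / t :=
    div_le_div_of_nonneg_right (mul_le_mul_of_nonneg_right hγ1 hn0) ht0.le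
  linarith

/-- the sum-of-squares bound of level `(k, 1)` is at most the `k`-point bound -/
lemma SOS_le_kPoint {k n d : ℕ} (hk : 1 ≤ k) : SOS k 1 n d ≤ kPoint k n d := by
  rw [KPointBounds.kp_eq, SumOfSquaresLevels.SOS_eq]
  unfold LS.SO
  refine csSup_le (LS.nonempty k 1 n d) ?_
  rintro v ⟨y, hy, rfl⟩
  refine le_csSup (KP.bdd_SW hk fun _ => zero_le_one) ⟨y, ?_, by simp⟩
  refine ⟨hy.one, hy.dist, fun D E hDE => ?_, fun D E hDE a => ?_⟩
  · have h1 := hy.psd D E hDE (fun S => if S = ∅ then 1 else 0) (by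
      intro S hS
      rw [if_neg]
      rintro rfl
      simp at hS)
    simpa using h1
  · obtain ⟨f, hf⟩ : ∃ f : Finset (Fin n → Bool) → ℝ,
        f = fun S => ∑ s : Option (Fin n → Bool), if s.toFinset = S then a s else 0 := ⟨_, rfl⟩
    have hpush : ∀ G : Finset (Fin n → Bool) → ℝ, ∑ S, f S * G S = ∑ s, a s * G s.toFinset := by
      intro G
      rw [hf]
      simp only [Finset.sum_mul, ite_mul, zero_mul]
      rw [Finset.sum_comm]
      refine Finset.sum_congr rfl fun s _ => ?_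
      simp
    have h1 := hy.psd D E (by omega) f (by
      intro S hS
      rw [hf]
      refine Finset.sum_eq_zero fun s _ => ?_
      rw [if_neg]
      rintro rfl
      cases s <;> simp at hS)
    refine h1.trans (le_of_eq ?_)
    have h2 : ∀ S : Finset (Fin n → Bool), ∑ T, f S * f T * KP.cond y D E (S ∪ T) =
        f S * ∑ t, a t * KP.cond y D E (S ∪ t.toFinset) := by
      intro S
      rw [← hpush fun T => KP.cond y D E (S ∪ T), Finset.mul_sum]
      exact Finset.sum_congr rfl fun T _ => by ring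
    rw [Finset.sum_congr rfl fun S _ => h2 S,
      hpush fun S => ∑ t, a t * KP.cond y D E (S ∪ t.toFinset)]
    refine Finset.sum_congr rfl fun s _ => ?_
    rw [Finset.mul_sum]
    exact Finset.sum_congr rfl fun t _ => by ring

/-- **Exponentially many conditionings.** -/
theorem result :
    (∀ δ : ℝ, 0 < δ → δ < 1 / 2 → 0 < gain δ) ∧
    (∀ δ γ : ℝ, 0 < δ → δ < 1 / 2 → γ < gain δ →
      ∃ c : ℝ, 0 < c ∧ ∃ n₀ : ℕ, ∀ n ≥ n₀, ∀ s t : ℕ, 1 ≤ t → (t : ℝ) ≤ c * √n →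
        (s : ℝ) ≤ Real.exp (c * n / t) →
          (2 : ℝ) ^ ((1 - H δ + γ / t) * n) ≤ SOS s t n ⌈δ * n⌉₊) ∧
    (∀ k n d : ℕ, 1 ≤ k → SOS k 1 n d ≤ kPoint k n d) ∧
    ∀ δ ε : ℝ, 0 < δ → δ < 1 / 2 → 0 < ε →
      ∃ c : ℝ, 0 < c ∧ ∃ n₀ : ℕ, ∀ n ≥ n₀, ∀ k : ℕ, 1 ≤ k → (k : ℝ) ≤ Real.exp (c * n) →
        (2 : ℝ) ^ ((((1 - H δ) + H (1 / 2 - √(δ * (1 - δ)))) / 2 - ε) * n) ≤
          kPoint k n ⌈δ * n⌉₊ := by
  have hl2 : 0 < Real.log 2 := Real.log_pos (by norm_num)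
  have main : ∀ δ γ : ℝ, 0 < δ → δ < 1 / 2 → γ < gain δ →
      ∃ c : ℝ, 0 < c ∧ ∃ n₀ : ℕ, ∀ n ≥ n₀, ∀ s t : ℕ, 1 ≤ t → (t : ℝ) ≤ c * √n →
        (s : ℝ) ≤ Real.exp (c * n / t) →
          (2 : ℝ) ^ ((1 - H δ + γ / t) * n) ≤ SOS s t n ⌈δ * n⌉₊ := by
    intro δ γ h0 h1 hγ
    obtain ⟨c, hc, n₀, h⟩ := SO_lower2 h0 h1 (γ := γ) (by
      unfold gain at hγ
      rw [SumOfSquaresLevels.H_eq, SumOfSquaresLevels.H_eq] at hγ
      have h2 : (Real.binEntropy (1 / 2 - √(δ * (1 - δ))) / Real.log 2 -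
          (1 - Real.binEntropy δ / Real.log 2)) / 2 =
          (Real.binEntropy (1 / 2 - √(δ * (1 - δ))) + Real.binEntropy δ - Real.log 2) / 2 /
            Real.log 2 := by
        field_simp
        ring
      rw [h2, lt_div_iff₀ hl2] at hγ
      exact hγ)
    refine ⟨c, hc, n₀, fun n hn s t ht htc hsc => ?_⟩
    rw [SumOfSquaresLevels.SOS_eq, SumOfSquaresLevels.H_eq]
    exact h n hn s t ht hsc htc
  refine ⟨SumOfSquaresLevels.result.2.2.2.1, main, fun k n d hk => SOS_le_kPoint hk,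
    fun δ ε h0 h1 hε => ?_⟩
  obtain ⟨c, hc, n₀, h⟩ := main δ (gain δ - ε) h0 h1 (by linarith)
  obtain ⟨n₁, hn₁⟩ := exists_nat_ge (1 / c ^ 2)
  refine ⟨c, hc, max n₀ n₁, fun n hn k hk hkn => ?_⟩
  have hn0 : n₀ ≤ n := le_trans (le_max_left _ _) hn
  have hn1 : (n₁ : ℝ) ≤ n := by exact_mod_cast le_trans (le_max_right _ _) hn
  have h2 : ((1 : ℕ) : ℝ) ≤ c * √n := by
    have h3 : 1 / c ^ 2 ≤ n := hn₁.trans hn1
    have h4 : √(1 / c ^ 2) ≤ √n := Real.sqrt_le_sqrt h3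
    rw [Real.sqrt_div zero_le_one, Real.sqrt_one, Real.sqrt_sq hc.le, div_le_iff₀ hc] at h4
    rw [Nat.cast_one]
    linarith
  have h3 := h n hn0 k 1 le_rfl h2 (by simpa using hkn)
  refine le_trans (le_of_eq ?_) (h3.trans (SOS_le_kPoint hk))
  congr 2
  unfold gain
  rw [Nat.cast_one]
  ring

end Pool.Agent.Results.MP_0430e4_lc.ExponentialLevels
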